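import Pool.Agent.H18.MC.AV0

/-!
# (AV2) correlation of truncated sums
-/

set_option autoImplicit false

namespace Pool.Agent.H33.MC

open Pool.Agent.H79.MC Pool.Agent.H18.MC

/-- flip the coordinates in `A` -/
def flF {n : ℕ} (A : Finset (Fin n)) (y : Fin n → Bool) : Fin n → Bool :=
  fun v => if v ∈ A then !(y v) else y v

lemma flF_invol {n : ℕ} (A : Finset (Fin n)) : Function.Involutive (flF A) := by
  intro y
  funext v
  unfold flF
  by_cases h : v ∈ A <;> simp [h]

lemma av_comp {n : ℕ} {e : (Fin n → Bool) → (Fin n → Bool)} (he : Function.Involutive e)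
    (f : (Fin n → Bool) → ℝ) : av (fun y => f (e y)) = av f := by
  unfold av
  congr 1
  have := Equiv.sum_comp (Function.Involutive.toPerm e he) f
  simpa using this

lemma Ys_fl_disj {n : ℕ} {A S : Finset (Fin n)} (h : Disjoint S A) (y : Fin n → Bool) :
    Ys S (flF A y) = Ys S y := by
  unfold Ys
  refine Finset.sum_congr rfl fun v hv => ?_
  unfold flF
  rw [if_neg (Finset.disjoint_left.1 h hv)]

lemma Ys_fl_self {n : ℕ} {A S : Finset (Fin n)} (h : S ⊆ A) (y : Fin n → Bool) :
    Ys S (flF A y) = -Ys S y := by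
  unfold Ys
  rw [← Finset.sum_neg_distrib]
  refine Finset.sum_congr rfl fun v hv => ?_
  unfold flF
  rw [if_pos (h hv), sb_not]

lemma Ys_split {n : ℕ} (S T : Finset (Fin n)) (y : Fin n → Bool) :
    Ys S y = Ys (S ∩ T) y + Ys (S \ T) y := by
  unfold Ys
  rw [← Finset.sum_union (Finset.disjoint_left.2 fun v h1 h2 =>
    (Finset.mem_sdiff.1 h2).2 (Finset.mem_inter.1 h1).2)]
  congr 1
  ext v
  simp only [Finset.mem_union, Finset.mem_inter, Finset.mem_sdiff]
  tauto

lemma clp_add (x y : ℝ) : |clp x + clp y| ≤ |x + y| := by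
  unfold clp
  rcases abs_cases (x + y) with h | h <;> rw [abs_le] <;>
  rcases max_cases (-1 : ℝ) (min 1 x) with h1 | h1 <;>
  rcases max_cases (-1 : ℝ) (min 1 y) with h2 | h2 <;>
  rcases min_cases (1 : ℝ) x with h3 | h3 <;>
  rcases min_cases (1 : ℝ) y with h4 | h4 <;>
  constructor <;> linarith

theorem pf_av2 (hAV0 : T_AV0) : T_AV2 := by
  intro n S T s hs
  obtain ⟨_, _, h0⟩ := hAV0 n
  obtain ⟨h2, _⟩ := h0 (S ∩ T)
  obtain ⟨F, hF⟩ : ∃ F : (Fin n → Bool) → ℝ, F = fun y => clp (Ys S y / s) := ⟨_, rfl⟩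
  obtain ⟨G, hG⟩ : ∃ G : (Fin n → Bool) → ℝ, G = fun y => clp (Ys T y / s) := ⟨_, rfl⟩
  have hdS : Disjoint S (T \ S) := Finset.disjoint_sdiff
  have hdT : Disjoint T (S \ T) := Finset.disjoint_sdiff
  have hF2 : ∀ y, F (flF (T \ S) y) = F y := fun y => by
    rw [hF]
    simp only
    rw [Ys_fl_disj hdS]
  have hG1 : ∀ y, G (flF (S \ T) y) = G y := fun y => by
    rw [hG]
    simp only
    rw [Ys_fl_disj hdT]
  have hdI1 : Disjoint (S ∩ T) (S \ T) := Finset.disjoint_left.2 fun v h1 h2 =>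
    (Finset.mem_sdiff.1 h2).2 (Finset.mem_inter.1 h1).2
  have hdI2 : Disjoint (T ∩ S) (T \ S) := Finset.disjoint_left.2 fun v h1 h2 =>
    (Finset.mem_sdiff.1 h2).2 (Finset.mem_inter.1 h1).2
  have hF1 : ∀ y, F (flF (S \ T) y) = clp ((Ys (S ∩ T) y - Ys (S \ T) y) / s) := fun y => by
    rw [hF]
    simp only
    rw [Ys_split S T, Ys_fl_disj hdI1, Ys_fl_self (Finset.Subset.refl _)]
    congr 1
  have hG2 : ∀ y, G (flF (T \ S) y) = clp ((Ys (T ∩ S) y - Ys (T \ S) y) / s) := fun y => by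
    rw [hG]
    simp only
    rw [Ys_split T S, Ys_fl_disj hdI2, Ys_fl_self (Finset.Subset.refl _)]
    congr 1
  have hd3 : Disjoint (S ∩ T) (T \ S) := by
    rw [Finset.inter_comm]
    exact hdI2
  have hd4 : Disjoint (S \ T) (T \ S) := Finset.disjoint_left.2 fun v h1 h2 =>
    (Finset.mem_sdiff.1 h2).2 (Finset.mem_sdiff.1 h1).1
  have hF12 : ∀ y, F (flF (S \ T) (flF (T \ S) y)) = F (flF (S \ T) y) := fun y => by
    rw [hF1, hF1, Ys_fl_disj hd3, Ys_fl_disj hd4]
  have e1 : av (fun y => F (flF (S \ T) y) * G y) = av (fun y => F y * G y) := by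
    rw [← av_comp (flF_invol (S \ T)) (fun y => F y * G y)]
    congr 1
    funext y
    rw [hG1]
  have e2 : av (fun y => F y * G (flF (T \ S) y)) = av (fun y => F y * G y) := by
    rw [← av_comp (flF_invol (T \ S)) (fun y => F y * G y)]
    congr 1
    funext y
    rw [hF2]
  have e3 : av (fun y => F (flF (S \ T) y) * G (flF (T \ S) y)) = av (fun y => F y * G y) := by
    rw [← e1, ← av_comp (flF_invol (T \ S)) (fun y => F (flF (S \ T) y) * G y)]
    congr 1
    funext y
    rw [hF12]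
  have e4 : 4 * av (fun y => F y * G y) =
      av (fun y => (F y + F (flF (S \ T) y)) * (G y + G (flF (T \ S) y))) := by
    have e5 : (fun y => (F y + F (flF (S \ T) y)) * (G y + G (flF (T \ S) y))) =
        fun y => ((F y * G y + F (flF (S \ T) y) * G y) + F y * G (flF (T \ S) y)) +
          F (flF (S \ T) y) * G (flF (T \ S) y) := by
      funext y
      ring
    rw [e5, av_add, av_add, av_add, e1, e2, e3]
    ring
  have e6 : av (fun y => (F y + F (flF (S \ T) y)) * (G y + G (flF (T \ S) y))) ≤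
      av (fun y => (4 / s ^ 2) * Ys (S ∩ T) y ^ 2) := by
    refine av_mono fun y => ?_
    have h3 : |F y + F (flF (S \ T) y)| ≤ 2 * |Ys (S ∩ T) y| / s := by
      rw [hF1, hF]
      simp only
      refine (clp_add _ _).trans (le_of_eq ?_)
      rw [← add_div, Ys_split S T, abs_div, abs_of_pos hs]
      congr 1
      rw [← abs_two, ← abs_mul]
      congr 1
      ring
    have h4 : |G y + G (flF (T \ S) y)| ≤ 2 * |Ys (S ∩ T) y| / s := by
      rw [hG2, hG]
      simp only
      refine (clp_add _ _).trans (le_of_eq ?_)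
      rw [← add_div, Ys_split T S, abs_div, abs_of_pos hs, Finset.inter_comm S T]
      congr 1
      rw [← abs_two, ← abs_mul]
      congr 1
      ring
    calc (F y + F (flF (S \ T) y)) * (G y + G (flF (T \ S) y)) ≤
          |F y + F (flF (S \ T) y)| * |G y + G (flF (T \ S) y)| := by
          rw [← abs_mul]
          exact le_abs_self _
      _ ≤ (2 * |Ys (S ∩ T) y| / s) * (2 * |Ys (S ∩ T) y| / s) :=
          mul_le_mul h3 h4 (abs_nonneg _) (by positivity)
      _ = (4 / s ^ 2) * |Ys (S ∩ T) y| ^ 2 := by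
          field_simp
          ring
      _ = (4 / s ^ 2) * Ys (S ∩ T) y ^ 2 := by rw [sq_abs]
  rw [← e4, av_mul, h2] at e6
  rw [hF, hG] at e6
  have h5 : (4 / s ^ 2) * ((S ∩ T).card : ℝ) = 4 * (((S ∩ T).card : ℝ) / s ^ 2) := by ring
  rw [h5] at e6
  linarith

end Pool.Agent.H33.MC
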