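import Pool.Agent.H88.MC.Targets

/-!
# (BN) few small sets
-/

set_option autoImplicit false

namespace Pool.Agent.H33.MC

open Pool.Agent.H88.MC Finset

theorem pf_bn : T_BN := by
  intro δ hδ hδ1 n
  obtain ⟨z, hz⟩ : ∃ z : ℝ, z = δ / 2 := ⟨_, rfl⟩
  have hz0 : 0 < z := by rw [hz]; linarith
  have hz1 : z ≤ 1 := by rw [hz]; linarith
  have hlog : Real.log z ≤ 0 := Real.log_nonpos hz0.le hz1
  have hlog2 : -Real.log z ≤ 2 / δ := by
    rw [← Real.log_inv]
    have h1 := Real.log_le_sub_one_of_pos (inv_pos.2 hz0)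
    have h2 : z⁻¹ = 2 / δ := by rw [hz, inv_div]
    rw [h2] at h1 ⊢
    linarith
  have hterm : ∀ T : Finset (Fin n), (#T : ℝ) ≤ δ ^ 2 / 4 * n →
      (1 : ℝ) ≤ z ^ #T * Real.exp (δ / 2 * n) := by
    intro T hT
    have h1 : z ^ #T = Real.exp (#T * Real.log z) := by
      rw [Real.exp_nat_mul, Real.exp_log hz0]
    rw [h1, ← Real.exp_add]
    rw [← Real.exp_zero, Real.exp_le_exp]
    have h2 : (#T : ℝ) * (-Real.log z) ≤ (δ ^ 2 / 4 * n) * (2 / δ) :=
      mul_le_mul hT hlog2 (by linarith) (by positivity)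
    have h3 : (δ ^ 2 / 4 * n) * (2 / δ) = δ / 2 * n := by
      field_simp
      ring
    rw [h3] at h2
    linarith
  have hsum : ∑ T : Finset (Fin n), z ^ #T = (1 + z) ^ n := by
    have h1 := Finset.sum_pow_mul_eq_add_pow z 1 (Finset.univ : Finset (Fin n))
    simp only [one_pow, mul_one, Finset.powerset_univ, Finset.card_univ, Fintype.card_fin] at h1
    rw [h1, add_comm]
  calc (#{T : Finset (Fin n) | (#T : ℝ) ≤ δ ^ 2 / 4 * n} : ℝ)
      = ∑ T ∈ Finset.univ.filter (fun T : Finset (Fin n) => (#T : ℝ) ≤ δ ^ 2 / 4 * n), (1 : ℝ) := by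
        rw [Finset.sum_const, nsmul_eq_mul, mul_one]
    _ ≤ ∑ T ∈ Finset.univ.filter (fun T : Finset (Fin n) => (#T : ℝ) ≤ δ ^ 2 / 4 * n),
          z ^ #T * Real.exp (δ / 2 * n) :=
        Finset.sum_le_sum fun T hT => hterm T (Finset.mem_filter.1 hT).2
    _ ≤ ∑ T : Finset (Fin n), z ^ #T * Real.exp (δ / 2 * n) :=
        Finset.sum_le_sum_of_subset_of_nonneg (Finset.filter_subset _ _)
          fun T _ _ => by positivity
    _ = (1 + z) ^ n * Real.exp (δ / 2 * n) := by rw [← Finset.sum_mul, hsum]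
    _ ≤ Real.exp (z * n) * Real.exp (δ / 2 * n) := by
        refine mul_le_mul_of_nonneg_right ?_ (Real.exp_pos _).le
        have h1 : 1 + z ≤ Real.exp z := by
          have := Real.add_one_le_exp z
          linarith
        calc (1 + z) ^ n ≤ Real.exp z ^ n := pow_le_pow_left₀ (by linarith) h1 n
          _ = Real.exp (z * n) := by rw [← Real.exp_nat_mul]; congr 1; ring
    _ = Real.exp (δ * n) := by
        rw [← Real.exp_add, hz]
        congr 1
        ring

end Pool.Agent.H33.MC
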