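import Pool.Agent.H96.MC.Targets
import Pool.Agent.H96.MC.Targets4

/-!
# MC module CHP: probability that bad windows exclude every constant
-/

set_option autoImplicit false

namespace Pool.Agent.H33.MC.CHP

open Classical MeasureTheory ProbabilityTheory Pool.Agent.H96.MC

noncomputable section

variable {q : ℕ}

/-- the cell `c` of the line -/
abbrev ce (c : ℤ) : Cell 1 := fun _ => c

lemma sn_one (z : Cell 1) : sn z = (z 0).natAbs := by
  simp [sn]

lemma ce_eq (x : Cell 1) : ce (x 0) = x := by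
  funext i
  rw [Fin.fin_one_eq_zero i]

lemma good_congr {V : Finset (Fin q → ℕ)} {N s T : ℕ} {m m' : Cfg 1 q}
    (h : ∀ x : CC 1 q, sn x.1 ≤ T + N → m x = m' x) (g : Fin q → ℤ) :
    Good V N s T m g ↔ Good V N s T m' g := by
  have h1 : rst m (cube 0 (T + N)) = rst m' (cube 0 (T + N)) := by
    ext x
    rw [rst_apply, rst_apply]
    split_ifs with hx
    · exact h x (by simpa using mem_cube.1 hx)
    · rfl
  unfold Good
  rw [h1]

lemma good_cls {V : Finset (Fin q → ℕ)} {N s T : ℕ} {m : Cfg 1 q} {g g' : Fin q → ℤ}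
    (h : g - g' ∈ Lat V) (hg : Good V N s T m g) : Good V N s T m g' := by
  obtain ⟨μ, y, h1, h2, h3, h4⟩ := hg
  refine ⟨μ, y, h1, h2, h3, fun hd => ?_⟩
  have h5 : leftCls s μ - g' = (leftCls s μ - g) + (g - g') := by abel
  rw [h5]
  exact (Lat V).add_mem (h4 hd) h

/-- the window around `c` is bad -/
def Bad (V : Finset (Fin q → ℕ)) (N s T : ℕ) (c : ℤ) : Set (Cfg 1 q) :=
  {n | ∃ g, ¬ Good V N s T (shift (ce c) n) g}

/-- the coloured cells around `c` -/
def blk (q : ℕ) (c : ℤ) (T : ℕ) : Finset (CC 1 q) := cube (ce c) T ×ˢ Finset.univ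

lemma mem_blk {c : ℤ} {T : ℕ} {x : CC 1 q} : x ∈ blk q c T ↔ (x.1 0 - c).natAbs ≤ T := by
  unfold blk
  rw [Finset.mem_product, mem_cube, sn_one]
  simp

lemma det_bad (V : Finset (Fin q → ℕ)) (N s T : ℕ) (c : ℤ) : DetBy (blk q c (T + N)) (Bad V N s T c) := by
  intro n n' h
  have h1 : ∀ x : CC 1 q, sn x.1 ≤ T + N → shift (ce c) n x = shift (ce c) n' x := by
    intro x hx
    refine h (x.1 + ce c, x.2) ?_
    rw [mem_blk]
    rw [sn_one] at hx
    simpa using hx
  unfold Bad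
  simp only [Set.mem_ofPred_eq]
  exact exists_congr fun g => not_congr (good_congr h1 g)

lemma det_mono {W W' : Finset (CC 1 q)} {S : Set (Cfg 1 q)} (h : DetBy W S) (hW : W ⊆ W') :
    DetBy W' S := fun n n' hn => h n n' fun x hx => hn x (hW hx)

lemma det_compl {W : Finset (CC 1 q)} {S : Set (Cfg 1 q)} (h : DetBy W S) : DetBy W Sᶜ :=
  fun n n' hn => not_congr (h n n' hn)

lemma det_meas {W : Finset (CC 1 q)} {S : Set (Cfg 1 q)} (h : DetBy W S) : MeasurableSet S := by
  let r : Cfg 1 q → (W → ℕ) := fun n x => n x.1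
  have hr : Measurable r := measurable_pi_lambda _ fun _ => measurable_pi_apply _
  have h1 : S = r ⁻¹' (r '' S) := by
    refine Set.Subset.antisymm (Set.subset_preimage_image r S) ?_
    rintro n ⟨n', hn', h2⟩
    refine (h n' n fun x hx => ?_).1 hn'
    exact congrFun h2 ⟨x, hx⟩
  rw [h1]
  exact hr (Set.to_countable _).measurableSet

lemma meas_shift (c : Cell 1) : Measurable (shift (q := q) c) :=
  measurable_pi_lambda _ fun _ => measurable_pi_apply _

instance (D : Dat q) (L : ℝ) : IsProbabilityMeasure (poisL D 1 L) := by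
  unfold poisL
  infer_instance

/-- the probability of a bad window -/
lemma prob_bad (h5 : T_SHI) (h6 : T_WINP) (D : Dat q) {L : ℝ} (hL : 0 ≤ L) (N s T : ℕ) (c : ℤ) :
    poisL D 1 L (Bad D.V N s T c) =
      ENNReal.ofReal (PL (fun x : win 1 q (T + N) => D.lam x.1.2) L (ZBad 1 D.V N s T)) := by
  rw [← h6 1 q D L (win 1 q (T + N)) (ZBad 1 D.V N s T) hL]
  have h1 : {m : Cfg 1 q | (fun x : win 1 q (T + N) => m x.1) ∈ ZBad 1 D.V N s T} =
      Bad D.V N s T 0 := by
    ext m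
    unfold ZBad Bad
    simp only [Set.mem_ofPred_eq]
    refine exists_congr fun g => not_congr (good_congr (fun x hx => ?_) g)
    have hx' : x ∈ win 1 q (T + N) := by
      unfold win
      rw [Finset.mem_product, mem_cube]
      exact ⟨by simpa using hx, Finset.mem_univ _⟩
    unfold ext
    rw [dif_pos hx']
    show m x = m (x.1 + ce 0, x.2)
    congr 1
    ext
    · simp
    · rfl
  rw [h1]
  have h2 : Bad D.V N s T c = shift (ce c) ⁻¹' (Bad D.V N s T 0) := by
    ext n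
    unfold Bad
    simp only [Set.mem_preimage, Set.mem_ofPred_eq]
    refine exists_congr fun g => not_congr (good_congr (fun x _ => ?_) g)
    show n (x.1 + ce c, x.2) = n (x.1 + ce 0 + ce c, x.2)
    congr 2
    funext i
    simp
  rw [h2, ← Measure.map_apply (meas_shift _) (det_meas (det_bad D.V N s T 0)), (h5 1 q D (ce c)).2 L]

/-- one of many disjoint windows is bad with probability at least one half -/
lemma prob_super (h4 : T_INDL) (D : Dat q) {L : ℝ} (N s T : ℕ) {P p : ℝ} (hp0 : 0 < p)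
    (hp1 : p ≤ P) (hP1 : P ≤ 1)
    (hb : ∀ c : ℤ, poisL D 1 L (Bad D.V N s T c) = ENNReal.ofReal P) (N1 : ℕ)
    (hN1 : (1 - p) ^ N1 ≤ 1 / 2) (c : Fin N1 → ℤ)
    (hc : ∀ t t', t ≠ t' → Disjoint (blk q (c t) (T + N)) (blk q (c t') (T + N))) :
    ENNReal.ofReal (1 / 2) ≤ poisL D 1 L {n | ∃ t, n ∈ Bad D.V N s T (c t)} := by
  have hm : ∀ t, MeasurableSet (Bad D.V N s T (c t)) := fun t => det_meas (det_bad D.V N s T (c t))
  have hmS : MeasurableSet {n : Cfg 1 q | ∃ t, n ∈ Bad D.V N s T (c t)} := by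
    have h1 : {n : Cfg 1 q | ∃ t, n ∈ Bad D.V N s T (c t)} = ⋃ t, Bad D.V N s T (c t) := by
      ext n
      simp
    rw [h1]
    exact MeasurableSet.iUnion hm
  have h1 : ({n : Cfg 1 q | ∃ t, n ∈ Bad D.V N s T (c t)})ᶜ =
      ⋂ t ∈ (Finset.univ : Finset (Fin N1)), (Bad D.V N s T (c t))ᶜ := by
    ext n
    simp
  have h2 := h4 1 q D L (Fin N1) Finset.univ (fun t => blk q (c t) (T + N))
    (fun t => (Bad D.V N s T (c t))ᶜ) (fun t _ => det_compl (det_bad D.V N s T (c t)))
    (fun t _ t' _ h => hc t t' h)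
  have h3 : ∀ t, poisL D 1 L (Bad D.V N s T (c t))ᶜ ≤ ENNReal.ofReal (1 - p) := by
    intro t
    rw [prob_compl_eq_one_sub (hm t), hb, ← ENNReal.ofReal_one,
      ← ENNReal.ofReal_sub _ (by linarith)]
    exact ENNReal.ofReal_le_ofReal (by linarith)
  have h4' : poisL D 1 L ({n : Cfg 1 q | ∃ t, n ∈ Bad D.V N s T (c t)})ᶜ ≤ ENNReal.ofReal (1 / 2) := by
    rw [h1, h2]
    calc ∏ t : Fin N1, poisL D 1 L (Bad D.V N s T (c t))ᶜ ≤ ∏ _t : Fin N1, ENNReal.ofReal (1 - p) :=
          Finset.prod_le_prod' fun t _ => h3 t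
      _ = ENNReal.ofReal ((1 - p) ^ N1) := by
          rw [Finset.prod_const, Finset.card_univ, Fintype.card_fin,
            ENNReal.ofReal_pow (by linarith)]
      _ ≤ _ := ENNReal.ofReal_le_ofReal hN1
  have h5 := prob_compl_eq_one_sub (μ := poisL D 1 L) hmS
  rw [h5] at h4'
  have h6 : (1 : ENNReal) ≤ ENNReal.ofReal (1 / 2) +
      poisL D 1 L {n : Cfg 1 q | ∃ t, n ∈ Bad D.V N s T (c t)} := tsub_le_iff_right.1 h4'
  have h7 : ENNReal.ofReal (1 / 2) + ENNReal.ofReal (1 / 2) = 1 := by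
    rw [← ENNReal.ofReal_add (by norm_num) (by norm_num), ← ENNReal.ofReal_one]
    norm_num
  rw [← h7] at h6
  exact (ENNReal.add_le_add_iff_left ENNReal.ofReal_ne_top).1 h6

/-- the configuration outside `W` is forgotten -/
def rs (W : Finset (CC 1 q)) (n : Cfg 1 q) : Cfg 1 q := fun x => if x ∈ W then n x else 0

lemma rs_congr {W : Finset (CC 1 q)} {n n' : Cfg 1 q} (h : ∀ x ∈ W, n x = n' x) :
    rs W n = rs W n' := by
  funext x
  unfold rs
  split_ifs with hx
  · exact h x hx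
  · rfl

lemma rs_mem {W : Finset (CC 1 q)} (n : Cfg 1 q) {x : CC 1 q} (h : x ∈ W) : rs W n x = n x :=
  if_pos h

theorem chp (h1 : T_CLS) (h2 : T_CLP) (h3 : T_CHA) (h4 : T_INDL) (h5 : T_SHI) (h6 : T_WINP) :
    T_CHP := by
  intro q D
  obtain ⟨E, hE, hrep, -⟩ := h1 q D
  obtain ⟨cG, hcG, hcl⟩ := h2 q D
  obtain ⟨B, hB⟩ : ∃ B, B = Fintype.card (Fin q → Fin E) := ⟨_, rfl⟩
  let en : (Fin q → Fin E) ≃ Fin B := (Fintype.equivFin _).trans (finCongr hB.symm)
  let γ : Fin B → Fin q → ℤ := fun m => toZ fun i => ((en.symm m) i : ℕ)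
  have hγ : ∀ g : Fin q → ℤ, ∃ m, g - γ m ∈ Lat D.V := by
    intro g
    obtain ⟨s, hs1, hs2⟩ := hrep g
    refine ⟨en fun i => ⟨s i, hs1 i⟩, ?_⟩
    show g - toZ (fun i => (((en.symm (en fun i => ⟨s i, hs1 i⟩)) i : Fin E) : ℕ)) ∈ _
    rw [Equiv.symm_apply_apply]
    exact hs2
  refine ⟨(cG / 2) ^ B, by positivity, fun N s T hNs hsT => ?_⟩
  obtain ⟨w, hw⟩ : ∃ w, w = 2 * (T + N) + 1 := ⟨_, rfl⟩
  refine ⟨B * (1 + 2 * w), fun L hL p hp hpP => ?_⟩
  obtain ⟨P, hP⟩ : ∃ P, P = PL (fun x : win 1 q (T + N) => D.lam x.1.2) L (ZBad 1 D.V N s T) :=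
    ⟨_, rfl⟩
  rw [← hP] at hpP
  have hb : ∀ c : ℤ, poisL D 1 L (Bad D.V N s T c) = ENNReal.ofReal P := fun c => by
    rw [prob_bad h5 h6 D (by linarith) N s T c, hP]
  have hP1 : P ≤ 1 := by
    have h7 := prob_le_one (μ := poisL D 1 L) (s := Bad D.V N s T 0)
    rw [hb 0] at h7
    exact ENNReal.ofReal_le_one.1 h7
  have hp1 : p ≤ 1 := hpP.trans hP1
  obtain ⟨N1, hN1⟩ : ∃ N1, N1 = ⌈1 / p⌉₊ := ⟨_, rfl⟩
  have hN1a : 1 / p ≤ N1 := by rw [hN1]; exact Nat.le_ceil _
  have hN1b : (N1 : ℝ) ≤ 2 / p := by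
    have h7 : (N1 : ℝ) < 1 / p + 1 := by
      rw [hN1]
      exact Nat.ceil_lt_add_one (by positivity)
    have h8 : 1 ≤ 1 / p := by
      rw [le_div_iff₀ hp]
      linarith
    have h9 : 2 / p = 1 / p + 1 / p := by ring
    linarith
  have hhalf : (1 - p) ^ N1 ≤ 1 / 2 := by
    have h7 : 1 - p ≤ Real.exp (-p) := by
      have := Real.add_one_le_exp (-p)
      linarith
    have h8 : (1 - p) ^ N1 ≤ Real.exp (-p) ^ N1 := pow_le_pow_left₀ (by linarith) h7 N1
    rw [← Real.exp_nat_mul] at h8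
    have h9 : (N1 : ℝ) * -p ≤ -1 := by
      rw [div_le_iff₀ hp] at hN1a
      linarith
    have h10 : Real.exp (-1) ≤ 1 / 2 := by
      rw [Real.exp_neg, ← one_div]
      exact one_div_le_one_div_of_le (by norm_num) (by linarith [Real.add_one_le_exp (1 : ℝ)])
    exact h8.trans ((Real.exp_le_exp.2 h9).trans h10)
  obtain ⟨H, hH⟩ : ∃ H, H = 1 + N1 * w := ⟨_, rfl⟩
  obtain ⟨R, hR⟩ : ∃ R, R = B * H := ⟨_, rfl⟩
  -- the layout
  let J : ℕ → ℤ := fun m => -(R : ℤ) + m * H
  let c : ℕ → ℕ → ℤ := fun m t => J m + 1 + t * w + (T + N)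
  have hH1 : 1 ≤ H := by omega
  have hJmono : ∀ m m' : ℕ, m < m' → J m + H ≤ J m' := by
    intro m m' h
    show -(R : ℤ) + m * H + H ≤ -(R : ℤ) + m' * H
    have h7 : (m + 1) * H ≤ m' * H := Nat.mul_le_mul_right H h
    have h8 : ((m : ℤ) + 1) * H ≤ m' * H := by exact_mod_cast h7
    linarith
  have hJ0 : ∀ m : ℕ, -(R : ℤ) ≤ J m := by
    intro m
    show -(R : ℤ) ≤ -(R : ℤ) + m * H
    have : (0 : ℤ) ≤ m * H := by positivity
    linarith
  have hJB : ∀ m : Fin B, J m + H ≤ 0 := by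
    intro m
    show -(R : ℤ) + (m : ℕ) * H + H ≤ 0
    have h7 : ((m : ℕ) + 1) * H ≤ B * H := Nat.mul_le_mul_right H m.2
    have h8 : (((m : ℕ) : ℤ) + 1) * H ≤ R := by rw [hR]; exact_mod_cast h7
    linarith
  have hct : ∀ (m : ℕ) (t : Fin N1), J m < c m t - (T + N) ∧ c m t + (T + N) < J m + H := by
    intro m t
    have h7 : ((t : ℕ) + 1) * w ≤ N1 * w := Nat.mul_le_mul_right w t.2
    have h8 : (((t : ℕ) : ℤ) + 1) * w ≤ N1 * w := by exact_mod_cast h7
    have h9 : (0 : ℤ) ≤ ((t : ℕ) : ℤ) * w := by positivity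
    have h10 : (w : ℤ) = 2 * (T + N) + 1 := by rw [hw]; push_cast; ring
    have h11 : (H : ℤ) = 1 + N1 * w := by rw [hH]; push_cast; ring
    constructor
    · show J m < J m + 1 + ((t : ℕ) : ℤ) * w + (T + N) - (T + N)
      linarith
    · show J m + 1 + ((t : ℕ) : ℤ) * w + (T + N) + (T + N) < J m + H
      linarith
  have hw' : (w : ℤ) = 2 * (T + N) + 1 := by rw [hw]; push_cast; ring
  have hin : ∀ (m : ℕ) (t : Fin N1) (x : CC 1 q), x ∈ blk q (c m t) (T + N) →
      J m < x.1 0 ∧ x.1 0 < J m + H := by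
    intro m t x hx
    rw [mem_blk] at hx
    have h7 := hct m t
    omega
  have hdis : ∀ (m : ℕ) (t t' : Fin N1), t ≠ t' →
      Disjoint (blk q (c m t) (T + N)) (blk q (c m t') (T + N)) := by
    intro m t t' htt
    rw [Finset.disjoint_left]
    intro x hx hx'
    rw [mem_blk] at hx hx'
    have e1 : c m t = J m + 1 + ((t : ℕ) : ℤ) * w + (T + N) := rfl
    have e2 : c m t' = J m + 1 + ((t' : ℕ) : ℤ) * w + (T + N) := rfl
    rcases lt_or_gt_of_ne (Fin.val_ne_of_ne htt) with h7 | h7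
    · have h8 : ((t : ℕ) + 1) * w ≤ (t' : ℕ) * w := Nat.mul_le_mul_right w h7
      have h9 : (((t : ℕ) : ℤ) + 1) * w ≤ ((t' : ℕ) : ℤ) * w := by exact_mod_cast h8
      have h10 : (((t : ℕ) : ℤ) + 1) * w = ((t : ℕ) : ℤ) * w + w := by ring
      omega
    · have h8 : ((t' : ℕ) + 1) * w ≤ (t : ℕ) * w := Nat.mul_le_mul_right w h7
      have h9 : (((t' : ℕ) : ℤ) + 1) * w ≤ ((t : ℕ) : ℤ) * w := by exact_mod_cast h8
      have h10 : (((t' : ℕ) : ℤ) + 1) * w = ((t' : ℕ) : ℤ) * w + w := by ring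
      omega
  let Wm : Fin B → Finset (CC 1 q) := fun m =>
    Finset.univ.biUnion fun t : Fin N1 => blk q (c m t) (T + N)
  have hWm : ∀ m m' : Fin B, m ≠ m' → Disjoint (Wm m) (Wm m') := by
    intro m m' hmm
    rw [Finset.disjoint_left]
    intro x hx hx'
    obtain ⟨t, -, hx⟩ := Finset.mem_biUnion.1 hx
    obtain ⟨t', -, hx'⟩ := Finset.mem_biUnion.1 hx'
    have h7 := hin m t x hx
    have h8 := hin m' t' x hx'
    rcases lt_or_gt_of_ne (Fin.val_ne_of_ne hmm) with h9 | h9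
    · have := hJmono m m' h9
      omega
    · have := hJmono m' m h9
      omega
  let W : Finset (CC 1 q) :=
    (((Finset.Ico (-(R : ℤ)) 0).filter fun x => ∀ m : Fin B, x ≠ J m).image ce) ×ˢ Finset.univ
  have hW : ∀ x : CC 1 q, x ∈ W ↔ -(R : ℤ) ≤ x.1 0 ∧ x.1 0 < 0 ∧ ∀ m : Fin B, x.1 0 ≠ J m := by
    intro x
    show x ∈ (_ ×ˢ _ : Finset (CC 1 q)) ↔ _
    rw [Finset.mem_product, Finset.mem_image]
    constructor
    · rintro ⟨⟨a, ha, hax⟩, -⟩
      rw [Finset.mem_filter, Finset.mem_Ico] at ha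
      have : x.1 0 = a := by rw [← hax]
      rw [this]
      exact ⟨ha.1.1, ha.1.2, ha.2⟩
    · rintro ⟨h7, h8, h9⟩
      refine ⟨⟨x.1 0, ?_, ce_eq x.1⟩, Finset.mem_univ _⟩
      rw [Finset.mem_filter, Finset.mem_Ico]
      exact ⟨⟨h7, h8⟩, h9⟩
  have hsub : ∀ (m : Fin B) (t : Fin N1), blk q (c m t) (T + N) ⊆ W := by
    intro m t x hx
    have h7 := hin m t x hx
    have h8 := hJ0 m
    have h9 := hJB m
    rw [hW]
    refine ⟨by omega, by omega, fun m' => ?_⟩
    rcases lt_trichotomy (m' : ℕ) (m : ℕ) with h10 | h10 | h10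
    · have := hJmono m' m h10
      omega
    · rw [h10]
      omega
    · have := hJmono m m' h10
      omega
  let S : Set (Cfg 1 q) := {n | ∀ m : Fin B, n ∈ {n' | ∃ t : Fin N1, n' ∈ Bad D.V N s T (c m t)}}
  have hdS : DetBy W S := by
    intro n n' h
    exact forall_congr' fun m => exists_congr fun t =>
      det_mono (det_bad D.V N s T (c m t)) (hsub m t) n n' h
  have hPS : ENNReal.ofReal ((1 / 2) ^ B) ≤ poisL D 1 L S := by
    have e1 : S = ⋂ m ∈ (Finset.univ : Finset (Fin B)),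
        {n' | ∃ t : Fin N1, n' ∈ Bad D.V N s T (c m t)} := by
      ext n
      simp [S]
    have h7 := h4 1 q D L (Fin B) Finset.univ Wm
      (fun m => {n' | ∃ t : Fin N1, n' ∈ Bad D.V N s T (c m t)})
      (fun m _ => fun n n' h => exists_congr fun t =>
        det_mono (det_bad D.V N s T (c m t))
          (Finset.subset_biUnion_of_mem (fun t : Fin N1 => blk q (c m t) (T + N))
            (Finset.mem_univ t)) n n' h) (fun m _ m' _ h => hWm m m' h)
    rw [e1, h7]
    calc ENNReal.ofReal ((1 / 2) ^ B) = ∏ _m : Fin B, ENNReal.ofReal (1 / 2) := by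
          rw [Finset.prod_const, Finset.card_univ, Fintype.card_fin,
            ENNReal.ofReal_pow (by norm_num)]
      _ ≤ _ := Finset.prod_le_prod' fun m _ =>
          prob_super h4 D N s T hp hpP hP1 hb N1 hhalf (fun t => c m t) (hdis m)
  let F : Fin B → Cfg 1 q → Fin q → ℤ := fun m n' =>
    if h : ∃ t : Fin N1, ∃ g, ¬ Good D.V N s T (shift (ce (c m t)) n') g then
      h.choose_spec.choose - γ m -
        ∑ x ∈ (Finset.Ico (-(R : ℤ)) (c m h.choose - s)).filter (fun x => ∀ m' : Fin B, x ≠ J m'),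
          toZ (fun i => n' (ce x, i))
    else 0
  have hcha := h3 q D L cG B (fun m => ce (J m)) W S (fun m n => F m (rs W n)) hL hcG.le (hcl L hL)
    (by
      intro m m' h
      have h7 : J m = J m' := congrFun h 0
      rcases lt_trichotomy (m : ℕ) (m' : ℕ) with h8 | h8 | h8
      · have := hJmono m m' h8
        omega
      · exact Fin.ext h8
      · have := hJmono m' m h8
        omega)
    (by
      intro m i h
      exact ((hW _).1 h).2.2 m rfl) hdS
    (by
      intro m n n' h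
      show F m (rs W n) = F m (rs W n')
      rw [rs_congr h])
  refine ⟨R, ?_, ?_⟩
  · rw [hR, hH, le_div_iff₀ hp]
    push_cast
    have h7 : (N1 : ℝ) * p ≤ 2 := by
      rw [le_div_iff₀ hp] at hN1b
      exact hN1b
    have h8 : (1 + (N1 : ℝ) * w) * p ≤ 1 + 2 * w := by
      have h9 : (N1 : ℝ) * p * w ≤ 2 * w := mul_le_mul_of_nonneg_right h7 (Nat.cast_nonneg w)
      nlinarith
    calc (B : ℝ) * (1 + N1 * w) * p = B * ((1 + N1 * w) * p) := by ring
      _ ≤ B * (1 + 2 * w) := mul_le_mul_of_nonneg_left h8 (Nat.cast_nonneg B)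
  · have e1 : ENNReal.ofReal ((cG / 2) ^ B) =
        ENNReal.ofReal (cG ^ B) * ENNReal.ofReal ((1 / 2) ^ B) := by
      rw [← ENNReal.ofReal_mul (by positivity), ← mul_pow]
      congr 2
      ring
    rw [e1]
    refine (mul_le_mul_right hPS _).trans (hcha.trans (measure_mono ?_))
    rintro n ⟨hnS, hn2⟩
    intro γ'
    obtain ⟨m, hm⟩ := hγ γ'
    have h : ∃ t : Fin N1, ∃ g, ¬ Good D.V N s T (shift (ce (c m t)) (rs W n)) g := by
      obtain ⟨t, ht⟩ := hnS m
      exact ⟨t, (det_mono (det_bad D.V N s T (c m t)) (hsub m t) n (rs W n)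
        (fun x hx => (rs_mem n hx).symm)).1 ht⟩
    have hF : F m (rs W n) = h.choose_spec.choose - γ m -
        ∑ x ∈ (Finset.Ico (-(R : ℤ)) (c m h.choose - s)).filter (fun x => ∀ m' : Fin B, x ≠ J m'),
          toZ (fun i => rs W n (ce x, i)) := dif_pos h
    have hlat := hn2 m
    simp only [hF] at hlat
    obtain ⟨t, ht⟩ : ∃ t, t = h.choose := ⟨_, rfl⟩
    obtain ⟨g, hg⟩ : ∃ g, g = h.choose_spec.choose := ⟨_, rfl⟩
    have hgood : ¬ Good D.V N s T (shift (ce (c m t)) (rs W n)) g := by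
      rw [hg, ht]
      exact h.choose_spec.choose_spec
    rw [← hg, ← ht] at hlat
    have h7 := hct m t
    have h8 := hJ0 m
    have h9 := hJB m
    refine ⟨c m t, by omega, fun hG => ?_⟩
    have hG' : Good D.V N s T (shift (ce (c m t)) (rs W n)) (γ' + lft R (c m t - s) n) := by
      refine (good_congr (fun x hx => ?_) _).1 hG
      show n (x.1 + ce (c m t), x.2) = rs W n (x.1 + ce (c m t), x.2)
      refine (rs_mem n (hsub m t ?_)).symm
      rw [mem_blk]
      rw [sn_one] at hx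
      simpa using hx
    refine hgood (good_cls ?_ hG')
    have hl : lft R (c m t - s) n =
        (∑ m' ∈ Finset.univ.filter (fun m' : Fin B => m' ≤ m), toZ (fun i => n (ce (J m'), i))) +
        ∑ x ∈ (Finset.Ico (-(R : ℤ)) (c m t - s)).filter (fun x => ∀ m' : Fin B, x ≠ J m'),
          toZ (fun i => rs W n (ce x, i)) := by
      have e2 : (Finset.Ico (-(R : ℤ)) (c m t - s)).filter (fun x => ¬ ∀ m' : Fin B, x ≠ J m') =
          (Finset.univ.filter (fun m' : Fin B => m' ≤ m)).image (fun m' : Fin B => J m') := by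
        ext x
        rw [Finset.mem_filter, Finset.mem_Ico, Finset.mem_image]
        constructor
        · rintro ⟨⟨h10, h11⟩, h12⟩
          push Not at h12
          obtain ⟨m', hm'⟩ := h12
          refine ⟨m', ?_, hm'.symm⟩
          rw [Finset.mem_filter]
          refine ⟨Finset.mem_univ _, ?_⟩
          by_contra hlt
          have := hJmono m m' (not_le.1 hlt)
          omega
        · rintro ⟨m', hm', rfl⟩
          rw [Finset.mem_filter] at hm'
          refine ⟨⟨hJ0 m', ?_⟩, by push Not; exact ⟨m', rfl⟩⟩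
          rcases lt_or_eq_of_le (show (m' : ℕ) ≤ m from hm'.2) with h10 | h10
          · have := hJmono m' m h10
            omega
          · rw [h10]
            omega
      have e3 : ∑ x ∈ (Finset.Ico (-(R : ℤ)) (c m t - s)).filter (fun x => ∀ m' : Fin B, x ≠ J m'),
          toZ (fun i => rs W n (ce x, i)) =
          ∑ x ∈ (Finset.Ico (-(R : ℤ)) (c m t - s)).filter (fun x => ∀ m' : Fin B, x ≠ J m'),
          toZ (fun i => n (ce x, i)) := by
        refine Finset.sum_congr rfl fun x hx => ?_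
        rw [Finset.mem_filter, Finset.mem_Ico] at hx
        congr 1
        funext i
        refine rs_mem n ((hW _).2 ⟨hx.1.1, ?_, hx.2⟩)
        show x < 0
        omega
      rw [e3]
      funext i
      simp only [lft, Pi.add_apply, Finset.sum_apply, Pool.Agent.H96.MC.toZ]
      rw [← Finset.sum_filter_add_sum_filter_not (Finset.Ico (-(R : ℤ)) (c m t - s))
        (fun x => ∀ m' : Fin B, x ≠ J m'), add_comm, e2, Finset.sum_image]
      intro m' _ m'' _ h10
      rcases lt_trichotomy (m' : ℕ) (m'' : ℕ) with h11 | h11 | h11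
      · have := hJmono m' m'' h11
        simp only at h10
        omega
      · exact Fin.ext h11
      · have := hJmono m'' m' h11
        simp only at h10
        omega
    have e4 : γ' + lft R (c m t - s) n - g = (γ' - γ m) +
        ((∑ m' ∈ Finset.univ.filter (fun m' : Fin B => m' ≤ m), toZ (fun i => n (ce (J m'), i))) -
          (g - γ m - ∑ x ∈ (Finset.Ico (-(R : ℤ)) (c m t - s)).filter
            (fun x => ∀ m' : Fin B, x ≠ J m'), toZ (fun i => rs W n (ce x, i)))) := by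
      rw [hl]
      abel
    rw [e4]
    exact (Lat D.V).add_mem hm hlat

end

end Pool.Agent.H33.MC.CHP
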