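import Pool.Agent.H8.MC.Targets

/-!
# Row CLO of the board mcl_modules: definable classes of bounded NLC-width
-/

set_option autoImplicit false

namespace Pool.Agent.H33.MC

open Pool.Agent.H8.MC Pool.Agent.H69.VR Pool.Agent.H8.VR Pool.Agent.H69.Sp

/-- the symbols of a formula are bounded -/
theorem clo_below (φ : MS) : ∃ M : ℕ, ∀ m, M ≤ m → φ.Below m := by
  induction φ with
  | un i x => exact ⟨i + 1, fun m hm => (show i < m by omega)⟩
  | bi i x y => exact ⟨i + 1, fun m hm => (show i < m by omega)⟩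
  | eq x y => exact ⟨0, fun m _ => trivial⟩
  | mem x X => exact ⟨0, fun m _ => trivial⟩
  | mod X q r => exact ⟨0, fun m _ => trivial⟩
  | neg φ ih => exact ih
  | and φ ψ ih1 ih2 =>
    obtain ⟨M1, h1⟩ := ih1
    obtain ⟨M2, h2⟩ := ih2
    exact ⟨max M1 M2, fun m hm => ⟨h1 m ((le_max_left _ _).trans hm),
      h2 m ((le_max_right _ _).trans hm)⟩⟩
  | ex x φ ih => exact ih
  | exS X φ ih => exact ih

/-- satisfaction of a formula with the only binary symbol `0` depends only on `R 0` -/
theorem clo_congr {A : Type} {P : ℕ → A → Prop} {R R' : ℕ → A → A → Prop} (h : R 0 = R' 0)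
    (φ : MS) (hφ : BinZero φ) : ∀ (e : ℕ → A) (V : ℕ → Set A), φ.Sat P R e V ↔ φ.Sat P R' e V := by
  induction φ with
  | un i x => exact fun e V => Iff.rfl
  | bi i x y =>
    intro e V
    have hi : i = 0 := hφ
    subst hi
    simp only [MS.Sat, h]
  | eq x y => exact fun e V => Iff.rfl
  | mem x X => exact fun e V => Iff.rfl
  | mod X q r => exact fun e V => Iff.rfl
  | neg φ ih => exact fun e V => not_congr (ih hφ e V)
  | and φ ψ ih1 ih2 => exact fun e V => and_congr (ih1 hφ.1 e V) (ih2 hφ.2 e V)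
  | ex x φ ih => exact fun e V => exists_congr fun a => ih hφ _ V
  | exS X φ ih => exact fun e V => exists_congr fun S => ih hφ e _

/-- renaming of the binary symbols `i ≥ 1` to `i + m` -/
def ren (m : ℕ) : C2 → C2
  | .un i v => .un i v
  | .bi i v w => .bi (if i = 0 then 0 else i + m) v w
  | .eq v w => .eq v w
  | .neg φ => .neg (ren m φ)
  | .and φ ψ => .and (ren m φ) (ren m ψ)
  | .cnt k q r v φ => .cnt k q r v (ren m φ)

theorem ren_sat {A : Type} (m : ℕ) (P : ℕ → A → Prop) (R : ℕ → A → A → Prop) (φ : C2) :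
    ∀ s : Bool → A, (ren m φ).Sat P R s ↔
      φ.Sat P (fun i => R (if i = 0 then 0 else i + m)) s := by
  induction φ with
  | un i v => exact fun s => Iff.rfl
  | bi i v w => exact fun s => Iff.rfl
  | eq v w => exact fun s => Iff.rfl
  | neg φ ih => exact fun s => not_congr (ih s)
  | and φ ψ ih1 ih2 => exact fun s => and_congr (ih1 s) (ih2 s)
  | cnt k q r v φ ih =>
    intro s
    have h : {a | (ren m φ).Sat P R (Function.update s v a)} =
        {a | φ.Sat P (fun i => R (if i = 0 then 0 else i + m)) (Function.update s v a)} := by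
      ext a
      exact ih _
    simp only [ren, C2.Sat, h]

/-- the relations `R 1, …, R m` are empty -/
def emp : ℕ → MS
  | 0 => .eq 0 0
  | j + 1 => .and (emp j) (.neg (.ex 0 (.ex 1 (.bi (j + 1) 0 1))))

theorem emp_below : ∀ m : ℕ, (emp m).Below (m + 1) := by
  have key : ∀ (j M : ℕ), j < M → (emp j).Below M := by
    intro j
    induction j with
    | zero => exact fun M _ => trivial
    | succ j ih =>
      intro M hM
      exact ⟨ih M (by omega), hM⟩
  exact fun m => key m (m + 1) (by omega)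

theorem emp_sat {A : Type} (P : ℕ → A → Prop) (R : ℕ → A → A → Prop) (e : ℕ → A)
    (V : ℕ → Set A) (m : ℕ) : (emp m).Sat P R e V ↔ ∀ i, 1 ≤ i → i ≤ m → ∀ a b, ¬ R i a b := by
  induction m with
  | zero =>
    refine ⟨fun _ i h1 h2 => absurd h1 (by omega), fun _ => rfl⟩
  | succ m ih =>
    have h1 : (emp (m + 1)).Sat P R e V ↔ (emp m).Sat P R e V ∧ ∀ a b, ¬ R (m + 1) a b := by
      refine and_congr Iff.rfl ?_
      simp [MS.Sat]
    rw [h1, ih]
    constructor
    · rintro ⟨h2, h3⟩ i hi1 hi2
      rcases Nat.eq_or_lt_of_le hi2 with h | h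
      · subst h
        exact h3
      · exact h2 i hi1 (by omega)
    · intro h
      exact ⟨fun i hi1 hi2 => h i hi1 (by omega), h (m + 1) (by omega) le_rfl⟩

/-- symmetric and irreflexive -/
def symi : MS := .and (.neg (.ex 0 (.ex 1 (.and (.bi 0 0 1) (.neg (.bi 0 1 0))))))
  (.neg (.ex 0 (.bi 0 0 0)))

theorem symi_sat {A : Type} (P : ℕ → A → Prop) (R : ℕ → A → A → Prop) (e : ℕ → A)
    (V : ℕ → Set A) : symi.Sat P R e V ↔ (∀ a b, R 0 a b → R 0 b a) ∧ ∀ a, ¬ R 0 a a := by
  simp [symi, MS.Sat]

theorem pf_clo (hSWM : T_SWM) (hNLM : T_NLM) : T_CLO := by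
  classical
  rintro C k ⟨χ, hχ0, hχ⟩ hC Ψ φ hΨ
  obtain ⟨M1, hM1⟩ := clo_below Ψ
  obtain ⟨M2, hM2⟩ := clo_below χ
  set m := max M1 M2 with hm
  set Ψ1 : MS := .and (.and Ψ χ) (.and symi (emp m)) with hΨ1
  have hB : Ψ1.Below (m + 1) := by
    refine ⟨⟨hM1 _ (by omega), hM2 _ (by omega)⟩, ?_, emp_below m⟩
    exact ⟨⟨Nat.succ_pos _, Nat.succ_pos _⟩, Nat.succ_pos _⟩
  have key : specC C Ψ φ = specWM k (m + 1) Ψ1 (ren m φ) := by
    ext n
    constructor
    · rintro ⟨hn, P, R, G, hG, hR, hS, hφ⟩
      refine ⟨hn, P, fun i => if i = 0 then R 0 else if i ≤ m then fun _ _ => False else R (i - m),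
        ?_, ?_, ?_⟩
      · obtain ⟨c, hc⟩ := hC n G hn hG
        refine ⟨c, hNLM k (m + 1) (Fin n) _ _ c ?_ ?_⟩
        · have h1 : R 0 = G.Adj := by
            funext a b
            exact propext (hR a b)
          simpa [h1] using hc
        · intro i a b hi1 hi2
          have h1 : i ≠ 0 := by omega
          have h2 : i ≤ m := by omega
          simp [h1, h2]
      · intro e V
        refine ⟨⟨?_, ?_⟩, ?_, ?_⟩
        · exact (clo_congr (by simp) Ψ hΨ e V).1 (hS e V)
        · refine ((hχ n P _ G hn ?_).2 hG) e V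
          intro a b
          simpa using hR a b
        · rw [symi_sat]
          simp only [if_true]
          exact ⟨fun a b h => (hR b a).2 ((hR a b).1 h).symm,
            fun a h => G.loopless.irrefl a ((hR a a).1 h)⟩
        · rw [emp_sat]
          intro i hi1 hi2 a b
          have h1 : i ≠ 0 := by omega
          simp [h1, hi2]
      · intro v
        rw [ren_sat]
        have h1 : (fun i => (fun i => if i = 0 then R 0 else if i ≤ m then fun _ _ => False
            else R (i - m)) (if i = 0 then 0 else i + m)) = R := by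
          funext i
          by_cases hi : i = 0
          · subst hi
            simp
          · have h2 : ¬ (i + m = 0) := by omega
            have h3 : ¬ (i + m ≤ m) := by omega
            simp only [hi, if_false, h2, h3]
            rw [Nat.add_sub_cancel]
        rw [h1]
        exact hφ v
    · rintro ⟨hn, P, R, -, hS, hφ⟩
      have e0 : ℕ → Fin n := fun _ => ⟨0, hn⟩
      have hs : (∀ a b, R 0 a b → R 0 b a) ∧ ∀ a, ¬ R 0 a a :=
        (symi_sat P R e0 (fun _ => ∅)).1 (hS e0 (fun _ => ∅)).2.1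
      set G : SimpleGraph (Fin n) := ⟨R 0, ⟨fun a b h => hs.1 a b h⟩, ⟨hs.2⟩⟩ with hG
      refine ⟨hn, P, fun i => R (if i = 0 then 0 else i + m), G, ?_, ?_, ?_, ?_⟩
      · refine (hχ n P R G hn (fun a b => Iff.rfl)).1 (fun e V => (hS e V).1.2)
      · intro a b
        simp [hG]
      · intro e V
        exact (clo_congr (by simp) Ψ hΨ e V).1 (hS e V).1.1
      · intro v
        exact (ren_sat m P R φ v).1 (hφ v)
  rw [key]
  exact hSWM k (m + 1) Ψ1 (ren m φ) hB

end Pool.Agent.H33.MC
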