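import Pool.Agent.H96.MC.Targets4
import Pool.Agent.H96.MC.Targets

/-!
# MC module CLP: classes of Poisson vectors
-/

set_option autoImplicit false

namespace Pool.Agent.H33.MC.CLP

open MeasureTheory ProbabilityTheory Pool.Agent.H96.MC

open scoped NNReal ENNReal

/-- a vector of independent Poisson variables with means `a + b` is a sum of two vectors -/
theorem pi_add {q : ℕ} (a b : Fin q → ℝ≥0) (Z : Set (Fin q → ℕ)) :
    Measure.pi (fun i => poissonMeasure (a i + b i)) Z =
      ((Measure.pi fun i => poissonMeasure (a i)).prod (Measure.pi fun i => poissonMeasure (b i)))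
        {p | (fun i => p.1 i + p.2 i) ∈ Z} := by
  have h1 := (measurePreserving_arrowProdEquivProdArrow ℕ ℕ (Fin q)
    (fun i => poissonMeasure (a i)) (fun i => poissonMeasure (b i))).map_eq
  have h2 := Measure.pi_map_pi (μ := fun i : Fin q => (poissonMeasure (a i)).prod
    (poissonMeasure (b i))) (f := fun _ (p : ℕ × ℕ) => p.1 + p.2)
    (fun _ => Measurable.of_discrete.aemeasurable)
  have h3 : (fun i : Fin q => ((poissonMeasure (a i)).prod (poissonMeasure (b i))).map
      (fun p : ℕ × ℕ => p.1 + p.2)) = fun i => poissonMeasure (a i + b i) := by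
    funext i
    exact poissonMeasure_conv_poissonMeasure (a i) (b i)
  rw [h3] at h2
  rw [← h2, ← h1, Measure.map_apply Measurable.of_discrete (Set.to_countable _).measurableSet,
    Measure.map_apply (MeasurableEquiv.measurable _) (Set.to_countable _).measurableSet]
  rfl

theorem clp (h : T_CLS) : T_CLP := by
  intro q D
  obtain ⟨E, hE, hrep, -⟩ := h q D
  let a : Fin q → ℝ≥0 := fun i => (D.lam i).toNNReal
  have ha : ∀ i, 0 < a i := fun i => Real.toNNReal_pos.2 (D.pos i)
  let f : (Fin q → Fin E) → ℝ := fun s =>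
    ∏ i, (Real.exp (-(a i : ℝ)) * (a i : ℝ) ^ (s i : ℕ) / (Nat.factorial (s i) : ℝ))
  have hf : ∀ s, 0 < f s := by
    intro s
    refine Finset.prod_pos fun i _ => ?_
    have : (0 : ℝ) < a i := by exact_mod_cast ha i
    positivity
  have hne : (Finset.univ : Finset (Fin q → Fin E)).Nonempty := ⟨fun _ => ⟨0, hE⟩, Finset.mem_univ _⟩
  obtain ⟨s₀, -, hs₀⟩ := Finset.exists_min_image Finset.univ f hne
  refine ⟨f s₀, hf s₀, fun L hL g => ?_⟩
  let b : Fin q → ℝ≥0 := fun i => (D.lam i * (L - 1)).toNNReal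
  have hab : (fun i : Fin q => poissonMeasure (D.lam i * L).toNNReal) =
      fun i => poissonMeasure (a i + b i) := by
    funext i
    congr 1
    show (D.lam i * L).toNNReal = (D.lam i).toNNReal + (D.lam i * (L - 1)).toNNReal
    rw [← Real.toNNReal_add (D.pos i).le (mul_nonneg (D.pos i).le (by linarith))]
    congr 1
    ring
  rw [hab, pi_add]
  have hms : MeasurableSet {p : (Fin q → ℕ) × (Fin q → ℕ) |
      (fun i => p.1 i + p.2 i) ∈ {u | toZ u - g ∈ Lat D.V}} := (Set.to_countable _).measurableSet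
  rw [Measure.prod_apply_symm hms]
  have hlow : ∀ y : Fin q → ℕ, ENNReal.ofReal (f s₀) ≤
      (Measure.pi fun i => poissonMeasure (a i))
        ((fun x : Fin q → ℕ => (x, y)) ⁻¹' {p : (Fin q → ℕ) × (Fin q → ℕ) |
          (fun i => p.1 i + p.2 i) ∈ {u | toZ u - g ∈ Lat D.V}}) := by
    intro y
    obtain ⟨s, hs1, hs2⟩ := hrep (g - toZ y)
    let s' : Fin q → Fin E := fun i => ⟨s i, hs1 i⟩
    have hmem : s ∈ ((fun x : Fin q → ℕ => (x, y)) ⁻¹' {p : (Fin q → ℕ) × (Fin q → ℕ) |
          (fun i => p.1 i + p.2 i) ∈ {u | toZ u - g ∈ Lat D.V}}) := by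
      show toZ (s + y) - g ∈ Lat D.V
      have h1 := (Lat D.V).neg_mem hs2
      have h2 : toZ (s + y) - g = -(g - toZ y - toZ s) := by
        rw [toZ_add]
        abel
      rw [h2]
      exact h1
    refine le_trans ?_ (measure_mono (Set.singleton_subset_iff.2 hmem))
    rw [Measure.pi_singleton]
    refine le_trans (ENNReal.ofReal_le_ofReal (hs₀ s' (Finset.mem_univ _))) ?_
    show ENNReal.ofReal (∏ i, _) ≤ _
    rw [ENNReal.ofReal_prod_of_nonneg (fun i _ => by positivity)]
    refine le_of_eq (Finset.prod_congr rfl fun i _ => ?_)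
    rw [poissonMeasure_singleton]
  calc ENNReal.ofReal (f s₀) = ∫⁻ _ : Fin q → ℕ, ENNReal.ofReal (f s₀)
        ∂(Measure.pi fun i => poissonMeasure (b i)) := by
        rw [lintegral_const, measure_univ, mul_one]
    _ ≤ _ := lintegral_mono hlow

end Pool.Agent.H33.MC.CLP
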