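import Pool.Agent.H74.MC.INR

/-!
# (GSL) the loop over the guesses
-/

set_option autoImplicit false

namespace Pool.Agent.H33.MC

open Pool.Agent.H79.MC Pool.Agent.H74.MC

/-- the invariant -/
def GI (a q n : ℕ) (A : ℕ → ℕ → ℕ) (j τ : ℕ) (s : St) (k : ℕ) (s' : St) : Prop :=
  Base a q n A s' ∧ s'.r 4 = j ∧ s'.r 5 = τ ∧ Out n A s' ∧ s'.r 14 ≤ s.r 14 ∧ s'.r 6 ≤ 1 ∧
  (∀ g < k, cost a q n A j g τ ≤ 2 ^ (n - 2 ^ a * q + 1) →
      ∀ X < 2 ^ n, Kept a q n A j g τ (X / 2 ^ (2 ^ a * q)) → s'.r 14 ≤ valF n A j (bits X)) ∧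
  (s'.r 6 ≠ 0 → k < 2 ^ ((a + 1) * q) ∧ ∀ i < (a + 1) * q, s'.a 4 i = bits k i) ∧
  (s'.r 6 = 0 → 2 ^ ((a + 1) * q) ≤ k)

theorem glen_ev {a q n W : ℕ} {A : ℕ → ℕ → ℕ} (hP : Par a q n A W) {s : St} (h : s.r 1 = q) :
    ev s (glenE a) = (a + 1) * q ∧ mx s (glenE a) ≤ W := by
  have hq : q ≤ n := le_trans (Nat.le_mul_of_pos_left _ (by positivity)) hP.hb
  have hW1 : (2 * 2 ^ a + a + 4) * (n + 1) ≤ W :=
    le_trans (Nat.le_mul_of_pos_right _ (Nat.succ_pos n)) hP.hW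
  have hp : 1 ≤ 2 ^ a := Nat.one_le_two_pow
  have h1 : (a + 1) * q ≤ (a + 1) * n := Nat.mul_le_mul_left _ hq
  constructor
  · show (a + 1) * s.r 1 = (a + 1) * q
    rw [h]
  · show max (max (a + 1) (s.r 1)) ((a + 1) * s.r 1) ≤ W
    rw [h]
    refine max_le (max_le ?_ ?_) ?_ <;> nlinarith

theorem gi_step (hINR : T_INR) (hSTP : T_STP) (hINC : T_INC) {a q n : ℕ} {A : ℕ → ℕ → ℕ}
    {W j τ : ℕ} {s : St} (hP : Par a q n A W) (hj : j < n) (hτ : τ ≤ 2 * 2 ^ a * (n * n))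
    (h14 : s.r 14 ≤ n * n + 1) {k : ℕ} {s' : St} (hI : GI a q n A j τ s k s')
    (h6 : s'.r 6 ≠ 0) :
    Ex W (.seq (setupP a) (.seq innerP (.seq (incP 4 (.lit 0) (glenE a)) (.set 6 (.reg 12))))) s'
      ((10 * n + 10) + ((2 ^ (n - 2 ^ a * q + 1) * (6 * n * n + 30 * n + 61) + 6 * n + 20) +
        ((5 * ((a + 1) * q) + 5) + 1))) (GI a q n A j τ s (k + 1)) := by
  have hn := hP.hn
  have hq : q ≤ n := le_trans (Nat.le_mul_of_pos_left _ (by positivity)) hP.hb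
  have hW1 : (2 * 2 ^ a + a + 4) * (n + 1) ≤ W :=
    le_trans (Nat.le_mul_of_pos_right _ (Nat.succ_pos n)) hP.hW
  have hW2 : 2 * 2 ^ a * (n + 1) + (a + 1) * (n + 1) ≤ W := by nlinarith
  have hp : 1 ≤ 2 ^ a := Nat.one_le_two_pow
  have hlen : (a + 1) * q ≤ (a + 1) * n := Nat.mul_le_mul_left _ hq
  have hW3 : (a + 1) * q + 1 ≤ W := by nlinarith
  have hW4 : 1 ≤ W := by omega
  obtain ⟨hB, hr4, hr5, hO, hr14, -, hval, hdig, -⟩ := hI
  obtain ⟨hk, ha4⟩ := hdig h6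
  have e1 := hSTP a W s' n q k hB.r0 hB.r1 hB.r2 hP.hb ha4 hn hW2
  refine ex_seq e1 ?_
  rintro s1 ⟨g1, x1⟩
  have hB1 : Base a q n A s1 := base_agree g1 (by decide) (by decide) hB
  have hO1 : Out n A s1 := out_agree g1 (by decide) (by decide) hO
  have h141 : s1.r 14 = s'.r 14 := g1.1 14 (by decide)
  have hD1 : Dec a q n j τ k s1 := by
    refine ⟨?_, ?_, ?_, fun i hi => (x1 i hi).1, fun i hi => (x1 i hi).2.1,
      fun i hi => (x1 i hi).2.2⟩
    · rw [g1.1 4 (by decide)]; exact hr4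
    · rw [g1.1 5 (by decide)]; exact hr5
    · rw [g1.2 4 (by decide)]; exact ha4
  have e2 := hINR a q n A W j τ k s1 hP hB1 hD1 hj hτ hO1 (by omega)
  refine ex_seq e2 ?_
  rintro s2 ⟨hB2, hD2, hO2, h142, -, hcomp⟩
  have e3 := hINC W 4 (.lit 0) (glenE a) s2 k 0 ((a + 1) * q) rfl (Nat.zero_le _)
    (fun s'' hs => by
      have h : s''.r 1 = q := by rw [hs.1 1 (by decide)]; exact hB2.r1
      exact glen_ev hP h) (Nat.zero_le _) hW3 hD2.a4 hk (by simp [Nat.mod_one])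
  refine ex_seq e3 ?_
  rintro s3 ⟨g3, -, hres⟩
  have h12 : s3.r 12 ≤ 1 := by
    rcases hres with h | h
    · omega
    · omega
  refine ex_mono (ex_set (show s3.r 12 ≤ W by omega)) (le_refl _) ?_
  rintro s4 rfl
  have g4 := agree_setr s3 6 (ev s3 (.reg 12))
  have g5 := agree_trans g3 g4
  set s4 : St := s3.setr 6 (ev s3 (.reg 12)) with hs4
  have h64 : s4.r 6 = s3.r 12 := by simp [hs4, St.setr, ev]
  have h44 : s4.a 4 = s3.a 4 := rfl
  have h144 : s4.r 14 = s2.r 14 := g5.1 14 (by decide)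
  refine ⟨base_agree g5 (by decide) (by decide) hB2, ?_, ?_,
    out_agree g5 (by decide) (by decide) hO2, by omega, by omega, ?_, ?_, ?_⟩
  · rw [g5.1 4 (by decide)]; exact hD2.r4
  · rw [g5.1 5 (by decide)]; exact hD2.r5
  · intro g hg hc X hX hK
    rcases Nat.lt_succ_iff_lt_or_eq.mp hg with h | h
    · have := hval g h hc X hX hK
      omega
    · rw [h] at hc hK
      have := hcomp hc X hX hK
      omega
  · intro h
    rcases hres with ⟨_, h2, h3, _⟩ | ⟨h1, _⟩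
    · rw [pow_zero] at h2 h3
      exact ⟨h2, by rw [h44]; exact h3⟩
    · omega
  · intro h
    rcases hres with ⟨h1, _⟩ | ⟨_, _, h3⟩
    · omega
    · rw [pow_zero] at h3
      exact h3

theorem pf_gsl (hINR : T_INR) (hSTP : T_STP) (hZER : T_ZER) (hINC : T_INC) (hWR : T_WR) :
    T_GSL := by
  intro a q n A W j τ s hP hB h4 h5 hj hτ hO h14
  have hn := hP.hn
  have hq : q ≤ n := le_trans (Nat.le_mul_of_pos_left _ (by positivity)) hP.hb
  have hW1 : (2 * 2 ^ a + a + 4) * (n + 1) ≤ W :=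
    le_trans (Nat.le_mul_of_pos_right _ (Nat.succ_pos n)) hP.hW
  have hlen : (a + 1) * q ≤ (a + 1) * n := Nat.mul_le_mul_left _ hq
  have hW3 : (a + 1) * q + 1 ≤ W := by nlinarith
  have z1 := hZER W 4 (glenE a) s ((a + 1) * q) hW3 (fun s' hs' => by
    have h : s'.r 1 = q := by rw [hs'.1 1 (by decide)]; exact hB.r1
    exact glen_ev hP h)
  have key : Ex W (guessP a) s ((3 * ((a + 1) * q) + 2) + (1 +
      (2 ^ ((a + 1) * q) * (((10 * n + 10) +
        ((2 ^ (n - 2 ^ a * q + 1) * (6 * n * n + 30 * n + 61) + 6 * n + 20) +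
        ((5 * ((a + 1) * q) + 5) + 1))) + 1) + 1)))
      fun s' => (∃ k ≤ 2 ^ ((a + 1) * q), GI a q n A j τ s k s') ∧ ev s' (.reg 6) = 0 := by
    refine ex_seq z1 ?_
    rintro s1 ⟨g1, x1⟩
    refine ex_seq (ex_set (by show 1 ≤ W; omega)) ?_
    rintro s2 rfl
    have g2 := agree_setr s1 6 1
    have g3 := agree_trans g1 g2
    set s2 : St := s1.setr 6 1 with hs2
    have h62 : s2.r 6 = 1 := by simp [hs2, St.setr]
    have h142 : s2.r 14 = s.r 14 := g3.1 14 (by decide)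
    refine hWR W (.reg 6) _ s2 _ (2 ^ ((a + 1) * q)) (GI a q n A j τ s) ?_ ?_ ?_
    · refine ⟨base_agree g3 (by decide) (by decide) hB, ?_, ?_,
        out_agree g3 (by decide) (by decide) hO, by omega, by omega, ?_, ?_, ?_⟩
      · rw [g3.1 4 (by decide)]; exact h4
      · rw [g3.1 5 (by decide)]; exact h5
      · intro g hg
        omega
      · intro _
        refine ⟨by positivity, fun i hi => ?_⟩
        have hb : bits 0 i = 0 := by simp [bits]
        rw [hb]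
        exact x1 i hi
      · intro h
        omega
    · rintro k s' ⟨_, _, _, _, _, h6, _, hd, _⟩
      exact ⟨show s'.r 6 ≤ W by omega, fun h => (hd h).1⟩
    · intro k s' hI h6
      exact gi_step hINR hSTP hINC hP hj hτ h14 hI h6
  refine ex_mono key ?_ ?_
  · have h1 : (10 * n + 10) +
        ((2 ^ (n - 2 ^ a * q + 1) * (6 * n * n + 30 * n + 61) + 6 * n + 20) +
        ((5 * ((a + 1) * q) + 5) + 1)) + 1 ≤
        2 ^ (n - 2 ^ a * q + 1) * (6 * n * n + 30 * n + 61) + (5 * (a + 1) + 30) * (n + 2) := by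
      nlinarith
    have h2 := Nat.mul_le_mul_left (2 ^ ((a + 1) * q)) h1
    have h3 : (3 * ((a + 1) * q) + 2) + (1 + 1) ≤ (5 * (a + 1) + 30) * (n + 2) := by
      nlinarith
    omega
  · rintro s' ⟨⟨k, hk, hI⟩, h6⟩
    obtain ⟨hB', hr4, hr5, hO', hr14, _, hval, _, hend⟩ := hI
    refine ⟨hB', hr4, hr5, hO', hr14, fun g hg => hval g ?_⟩
    have := hend h6
    omega

end Pool.Agent.H33.MC
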