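import Pool.Agent.H96.MC.Targets4

/-!
# MC module MAIN: the main theorem from the interfaces
-/

set_option autoImplicit false

namespace Pool.Agent.H33.MC.MAIN

open MeasureTheory ProbabilityTheory Filter Pool.Agent.H96.MC

/-- `exp (-(ε / 2) r ^ d)` is eventually small -/
theorem ev_small {d : ℕ} (hd : 1 ≤ d) {ε : ℝ} (hε : 0 < ε) {c : ℝ} (hc : 0 < c) :
    ∀ᶠ r : ℝ in atTop, Real.exp (-(ε / 2) * r ^ d) ≤ c := by
  have h1 : Tendsto (fun r : ℝ => Real.exp (-(ε / 2) * r ^ d)) atTop (nhds 0) := by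
    refine Real.tendsto_exp_atBot.comp ?_
    refine Tendsto.const_mul_atTop_of_neg (by linarith) ?_
    exact tendsto_pow_atTop (by omega)
  have h2 := h1.eventually (gt_mem_nhds hc)
  filter_upwards [h2] with r hr
  exact le_of_lt hr

theorem mainthm (h1 : T_APOS) (h2 : T_UPPER) (h3 : T_LOWER) (h4 : T_FTL) (h5 : T_NU) :
    MainTheorem := by
  intro d q lam V hd hpos hunit hint
  let D : Dat q := ⟨V, lam, hpos, hint, hunit⟩
  obtain ⟨i₀, _⟩ := hunit
  have hL : 0 < ∑ i, lam i := Finset.sum_pos (fun i _ => hpos i) ⟨i₀, Finset.mem_univ _⟩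
  refine ⟨aconst D d, h1 d q D hd, ?_, ?_⟩
  · obtain ⟨S, hS⟩ := h2 d q D hd
    refine ⟨S, fun B hB hB0 hB1 ε hε => ?_⟩
    filter_upwards [hS (ε / 2) (by linarith), ev_small hd hε hL] with r hr1 hr2
    have e1 : 1 - S.F B r = (S.tl r).toReal / ∑ i, lam i := h4 d q D S B r hd hB hB0 hB1
    rw [e1, div_le_iff₀ hL]
    have e2 : (S.tl r).toReal ≤ Real.exp (-(aconst D d - ε / 2) * r ^ d) :=
      ENNReal.toReal_le_of_le_ofReal (Real.exp_pos _).le hr1
    have e3 : Real.exp (-(aconst D d - ε / 2) * r ^ d) =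
        Real.exp (-(aconst D d - ε) * r ^ d) * Real.exp (-(ε / 2) * r ^ d) := by
      rw [← Real.exp_add]
      congr 1
      ring
    rw [e3] at e2
    exact e2.trans (mul_le_mul_of_nonneg_left hr2 (Real.exp_pos _).le)
  · intro S B hB hB0 hB1 ε hε
    filter_upwards [h3 d q D hd S (ε / 2) (by linarith), ev_small hd hε (inv_pos.2 hL)] with r hr1 hr2
    have e1 : 1 - S.F B r = (S.tl r).toReal / ∑ i, lam i := h4 d q D S B r hd hB hB0 hB1
    rw [e1, le_div_iff₀ hL]
    have hfin : S.tl r ≠ ⊤ :=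
      ne_top_of_le_ne_top ENNReal.ofReal_ne_top (h5 d q D S r B hd hB).2.2
    have e2 : Real.exp (-(aconst D d + ε / 2) * r ^ d) ≤ (S.tl r).toReal :=
      (ENNReal.ofReal_le_iff_le_toReal hfin).1 hr1
    refine le_trans ?_ e2
    have e3 : Real.exp (-(aconst D d + ε) * r ^ d) =
        Real.exp (-(aconst D d + ε / 2) * r ^ d) * Real.exp (-(ε / 2) * r ^ d) := by
      rw [← Real.exp_add]
      congr 1
      ring
    rw [e3, mul_assoc]
    have h6 : Real.exp (-(ε / 2) * r ^ d) * ∑ i, lam i ≤ 1 := by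
      have := mul_le_mul_of_nonneg_right hr2 hL.le
      rwa [inv_mul_cancel₀ hL.ne'] at this
    exact mul_le_of_le_one_right (Real.exp_pos _).le h6

end Pool.Agent.H33.MC.MAIN
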