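import Pool.Agent.H79.MC.Targets2

/-!
# (WIN) a cyclic window of small weight
-/

set_option autoImplicit false

namespace Pool.Agent.H33.MC

open Pool.Agent.H79.MC

lemma win_sum (n i : ℕ) (hn : 1 ≤ n) (w : ℕ → ℝ) :
    ∑ j ∈ Finset.range n, w ((i + j) % n) = ∑ v ∈ Finset.range n, w v := by
  have hi : i % n < n := Nat.mod_lt _ hn
  refine Finset.sum_nbij' (fun j => (i + j) % n) (fun v => (v + (n - i % n)) % n) ?_ ?_ ?_ ?_ ?_
  · intro j _
    exact Finset.mem_range.2 (Nat.mod_lt _ hn)
  · intro j _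
    exact Finset.mem_range.2 (Nat.mod_lt _ hn)
  · intro j hj
    rw [Finset.mem_range] at hj
    have h1 : i = i % n + n * (i / n) := (Nat.mod_add_div i n).symm
    rw [Nat.mod_add_mod]
    have h2 : i + j + (n - i % n) = j + n * (i / n + 1) := by
      rw [Nat.mul_add, mul_one]
      omega
    rw [h2, Nat.add_mul_mod_self_left, Nat.mod_eq_of_lt hj]
  · intro v hv
    rw [Finset.mem_range] at hv
    have h1 : i = i % n + n * (i / n) := (Nat.mod_add_div i n).symm
    rw [Nat.add_mod_mod]
    have h2 : i + (v + (n - i % n)) = v + n * (i / n + 1) := by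
      rw [Nat.mul_add, mul_one]
      omega
    rw [h2, Nat.add_mul_mod_self_left, Nat.mod_eq_of_lt hv]
  · intro j _
    rfl

theorem pf_win : T_WIN := by
  intro n b w hn
  have hsum : ∑ j ∈ Finset.range n, (n : ℝ) * ∑ i ∈ Finset.range b, w ((i + j) % n) ≤
      ∑ j ∈ Finset.range n, (b : ℝ) * ∑ v ∈ Finset.range n, w v := by
    refine le_of_eq ?_
    rw [← Finset.mul_sum, Finset.sum_comm]
    have h1 : ∀ i ∈ Finset.range b, ∑ j ∈ Finset.range n, w ((i + j) % n) =
        ∑ v ∈ Finset.range n, w v := fun i _ => win_sum n i hn w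
    rw [Finset.sum_congr rfl h1, Finset.sum_const, Finset.sum_const, Finset.card_range,
      Finset.card_range, nsmul_eq_mul, nsmul_eq_mul]
  obtain ⟨j, hj, h⟩ := Finset.exists_le_of_sum_le
    (Finset.nonempty_range_iff.2 (by omega)) hsum
  exact ⟨j, Finset.mem_range.1 hj, h⟩

end Pool.Agent.H33.MC
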